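import Mathlib

namespace Pool.Agent.N8.SqFree

open MvPolynomial

universe u

/-- The form of degree `d` in `K[x_0,…,x_{n-1}]` whose coefficient at the square-free monomial
`∏_{i∈T} x_i` is `c T`; modulo the squares of the variables every form of degree `d` is one of
these. -/
noncomputable def form {K : Type u} [Field K] {n : ℕ} (d : ℕ)
    (c : {T : Finset (Fin n) // T.card = d} → K) : MvPolynomial (Fin n) K :=
  ∑ T : {T : Finset (Fin n) // T.card = d}, C (c T) * ∏ i ∈ T.1, X i

/-- The ideal `(x_0^2,…,x_{n-1}^2, f_1,…,f_r)` of `K[x_0,…,x_{n-1}]`. -/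
noncomputable def idealOf {K : Type u} [Field K] {n r : ℕ} (f : Fin r → MvPolynomial (Fin n) K) :
    Ideal (MvPolynomial (Fin n) K) :=
  Ideal.span (Set.range fun i : Fin n => X i ^ 2) ⊔ Ideal.span (Set.range f)

/-- The dimension of the degree-`k` part of `K[x_0,…,x_{n-1}]/J`: the `K`-dimension of the image of
the space of homogeneous polynomials of degree `k`. -/
noncomputable def hilb {K : Type u} [Field K] {n : ℕ} (J : Ideal (MvPolynomial (Fin n) K))
    (k : ℕ) : ℕ :=
  Module.finrank K ((homogeneousSubmodule (Fin n) K k).map (Ideal.Quotient.mkₐ K J).toLinearMap)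

/-- The Hilbert series of `K[x_0,…,x_{n-1}]/J`. -/
noncomputable def hilbertSeries {K : Type u} [Field K] {n : ℕ}
    (J : Ideal (MvPolynomial (Fin n) K)) : PowerSeries ℤ :=
  PowerSeries.mk fun k => (hilb J k : ℤ)

/-- `⟨p⟩`: the series `p`, cut off at its first coefficient that is not positive. -/
noncomputable def trunc (p : PowerSeries ℤ) : PowerSeries ℤ :=
  open Classical in
  PowerSeries.mk fun k =>
    if ∀ i ≤ k, 0 < PowerSeries.coeff i p then PowerSeries.coeff k p else 0

/-- The predicted series `⟨(1+t)^n ∏ (1-t^{d_i})⟩`. -/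
noncomputable def predicted (n : ℕ) {r : ℕ} (d : Fin r → ℕ) : PowerSeries ℤ :=
  trunc ((1 + PowerSeries.X) ^ n * ∏ j, (1 - PowerSeries.X ^ d j))

/-- The set indexing the coordinates of the coefficient space of `r`-tuples of forms of the
square-free algebra on `n` variables, of degrees `d_1,…,d_r`. -/
abbrev CoeffIdx (n : ℕ) {r : ℕ} (d : Fin r → ℕ) : Type :=
  Σ j : Fin r, {T : Finset (Fin n) // T.card = d j}

/-- The Hilbert series of the quotient of the square-free algebra by the forms with coefficient
vector `c`. -/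
noncomputable def seriesOf {K : Type u} [Field K] {n r : ℕ} {d : Fin r → ℕ}
    (c : CoeffIdx n d → K) : PowerSeries ℤ :=
  hilbertSeries (idealOf fun j => form (d j) fun T => c ⟨j, T⟩)

/-- The generic ideals with generators of degrees `d_1,…,d_r` have Hilbert series `s`: this holds
on a nonempty basic open subset `{g ≠ 0}` of the coefficient space. -/
def GenericSeries (K : Type u) [Field K] (n : ℕ) {r : ℕ} (d : Fin r → ℕ)
    (s : PowerSeries ℤ) : Prop :=
  ∃ g : MvPolynomial (CoeffIdx n d) K, g ≠ 0 ∧ ∀ c, eval c g ≠ 0 → seriesOf c = s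

/-! ### square-free monomials -/

section chi
variable {n : ℕ}

/-- exponent vector of a square-free monomial -/
noncomputable def chi (T : Finset (Fin n)) : Fin n →₀ ℕ := ∑ i ∈ T, Finsupp.single i 1

lemma chi_apply (T : Finset (Fin n)) (i : Fin n) : chi T i = if i ∈ T then 1 else 0 := by
  classical
  unfold chi
  rw [Finsupp.finsetSum_apply]
  simp [Finsupp.single_apply]

lemma chi_le_iff {U T : Finset (Fin n)} : chi U ≤ chi T ↔ U ⊆ T := by
  classical
  rw [Finsupp.le_def]
  constructor
  · intro h i hi
    have := h i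
    rw [chi_apply, chi_apply, if_pos hi] at this
    by_contra hn
    rw [if_neg hn] at this
    omega
  · intro h i
    rw [chi_apply, chi_apply]
    by_cases hi : i ∈ U
    · rw [if_pos hi, if_pos (h hi)]
    · rw [if_neg hi]; exact Nat.zero_le _

lemma chi_sub {U T : Finset (Fin n)} : chi T - chi U = chi (T \ U) := by
  classical
  ext i
  rw [Finsupp.tsub_apply, chi_apply, chi_apply, chi_apply]
  by_cases hT : i ∈ T <;> by_cases hU : i ∈ U <;> simp [hT, hU]

lemma chi_inj {U T : Finset (Fin n)} (h : chi U = chi T) : U = T := by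
  apply Finset.Subset.antisymm
  · exact chi_le_iff.1 h.le
  · exact chi_le_iff.1 h.ge

lemma chi_degree (T : Finset (Fin n)) : (chi T).degree = T.card := by
  classical
  unfold chi
  rw [map_sum]
  simp

variable {K : Type u} [Field K]

lemma prod_X_eq (T : Finset (Fin n)) :
    (∏ i ∈ T, X i : MvPolynomial (Fin n) K) = monomial (chi T) 1 := by
  unfold chi
  rw [monomial_sum_one]
  rfl

lemma coeff_mul_sq (q : MvPolynomial (Fin n) K) (i : Fin n) (T : Finset (Fin n)) :
    coeff (chi T) (q * X i ^ 2) = 0 := by
  classical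
  rw [X_pow_eq_monomial, coeff_mul_monomial', if_neg]
  intro h
  have := h i
  rw [chi_apply, Finsupp.single_eq_same] at this
  split_ifs at this <;> omega

lemma coeff_mul_prod (q : MvPolynomial (Fin n) K) (U T : Finset (Fin n)) :
    coeff (chi T) (q * ∏ i ∈ U, X i) = if U ⊆ T then coeff (chi (T \ U)) q else 0 := by
  classical
  rw [prod_X_eq, coeff_mul_monomial', mul_one, chi_sub]
  simp only [chi_le_iff]

lemma coeff_mul_form (q : MvPolynomial (Fin n) K) (d : ℕ)
    (c : {T : Finset (Fin n) // T.card = d} → K) (T : Finset (Fin n)) :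
    coeff (chi T) (q * form d c) =
      ∑ U : {T : Finset (Fin n) // T.card = d},
        c U * (if U.1 ⊆ T then coeff (chi (T \ U.1)) q else 0) := by
  classical
  unfold form
  rw [Finset.mul_sum, coeff_sum]
  refine Finset.sum_congr rfl fun U _ => ?_
  rw [← mul_assoc, mul_comm q, mul_assoc, coeff_C_mul, coeff_mul_prod]

lemma coeff_of_mem_sq {p : MvPolynomial (Fin n) K}
    (hp : p ∈ Ideal.span (Set.range fun i : Fin n => (X i ^ 2 : MvPolynomial (Fin n) K)))
    (T : Finset (Fin n)) : coeff (chi T) p = 0 := by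
  classical
  rw [Ideal.mem_span_range_iff_exists_fun] at hp
  obtain ⟨c, rfl⟩ := hp
  rw [coeff_sum]
  exact Finset.sum_eq_zero fun i _ => coeff_mul_sq _ _ _

lemma mem_sq_of_coeff {p : MvPolynomial (Fin n) K}
    (hp : ∀ T : Finset (Fin n), coeff (chi T) p = 0) :
    p ∈ Ideal.span (Set.range fun i : Fin n => (X i ^ 2 : MvPolynomial (Fin n) K)) := by
  classical
  rw [p.as_sum]
  refine Ideal.sum_mem _ fun m hm => ?_
  by_cases h : ∃ i, 2 ≤ m i
  · obtain ⟨i, hi⟩ := h
    have : monomial m (coeff m p) =
        monomial (m - Finsupp.single i 2) (coeff m p) * (X i ^ 2 : MvPolynomial (Fin n) K) := by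
      rw [X_pow_eq_monomial, monomial_mul, mul_one, tsub_add_cancel_of_le]
      rw [Finsupp.single_le_iff]
      exact hi
    rw [this]
    exact Ideal.mul_mem_left _ _ (Ideal.subset_span ⟨i, rfl⟩)
  · exfalso
    push Not at h
    have hm' : m = chi m.support := by
      ext i
      rw [chi_apply]
      by_cases hi : i ∈ m.support
      · rw [if_pos hi]
        have h1 := h i
        have h2 := Finsupp.mem_support_iff.1 hi
        omega
      · rw [if_neg hi]
        exact Finsupp.notMem_support_iff.1 hi
    apply MvPolynomial.mem_support_iff.1 hm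
    rw [hm']
    exact hp _

/-- coefficients at the square-free monomials of degree `k` -/
noncomputable def sq (K : Type u) [Field K] (n k : ℕ) :
    MvPolynomial (Fin n) K →ₗ[K] ({T : Finset (Fin n) // T.card = k} → K) :=
  LinearMap.pi fun T => MvPolynomial.lcoeff K (chi T.1)

@[simp] lemma sq_apply (k : ℕ) (p : MvPolynomial (Fin n) K)
    (T : {T : Finset (Fin n) // T.card = k}) : sq K n k p T = coeff (chi T.1) p := rfl

lemma prod_mem_homogeneous (T : Finset (Fin n)) :
    (∏ i ∈ T, X i : MvPolynomial (Fin n) K) ∈ homogeneousSubmodule (Fin n) K T.card := by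
  rw [mem_homogeneousSubmodule]
  have := IsHomogeneous.prod T (fun i => (X i : MvPolynomial (Fin n) K)) (fun _ => 1)
    (fun i _ => isHomogeneous_X K i)
  simpa using this

lemma map_sq_homogeneous (k : ℕ) :
    (homogeneousSubmodule (Fin n) K k).map (sq K n k) = ⊤ := by
  classical
  rw [eq_top_iff]
  intro v _
  refine ⟨∑ T : {T : Finset (Fin n) // T.card = k}, v T • ∏ i ∈ T.1, X i, ?_, ?_⟩
  · refine Submodule.sum_mem _ fun T _ => Submodule.smul_mem _ _ ?_
    have := prod_mem_homogeneous (K := K) T.1
    rw [T.2] at this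
    exact this
  · ext T
    rw [sq_apply, coeff_sum, Finset.sum_eq_single T]
    · rw [coeff_smul, prod_X_eq, coeff_monomial, if_pos rfl, smul_eq_mul, mul_one]
    · intro U _ hU
      rw [coeff_smul, prod_X_eq, coeff_monomial, if_neg, smul_zero]
      intro h
      exact hU (Subtype.ext (chi_inj h))
    · intro h; exact absurd (Finset.mem_univ _) h

/-- The basic lower bound for the Hilbert function. -/
lemma card_le_hilb (J : Ideal (MvPolynomial (Fin n) K)) (k : ℕ) :
    Module.finrank K ({T : Finset (Fin n) // T.card = k} → K) ≤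
      hilb J k + Module.finrank K ((J.restrictScalars K).map (sq K n k)) := by
  classical
  set W := (J.restrictScalars K).map (sq K n k) with hW
  let π : MvPolynomial (Fin n) K →ₗ[K] (MvPolynomial (Fin n) K ⧸ J) :=
    (Ideal.Quotient.mkₐ K J).toLinearMap
  have hπ : Function.Surjective π := Ideal.Quotient.mkₐ_surjective K J
  let g : MvPolynomial (Fin n) K →ₗ[K] (({T : Finset (Fin n) // T.card = k} → K) ⧸ W) :=
    W.mkQ.comp (sq K n k)
  have hg : ∀ x y, π x = π y → g x = g y := by
    intro x y hxy
    have h1 : x - y ∈ J := (Ideal.Quotient.eq).1 hxy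
    have h2 : sq K n k (x - y) ∈ W := ⟨x - y, h1, rfl⟩
    change W.mkQ (sq K n k x) = W.mkQ (sq K n k y)
    rw [← sub_eq_zero, ← map_sub, ← map_sub]
    exact (Submodule.Quotient.mk_eq_zero W).2 h2
  obtain ⟨s, hs⟩ := π.exists_rightInverse_of_surjective (LinearMap.range_eq_top.2 hπ)
  have hs' : ∀ x, π (s x) = x := fun x => by
    have := congrArg (fun f => f x) hs
    simpa using this
  let gb : (MvPolynomial (Fin n) K ⧸ J) →ₗ[K] (({T : Finset (Fin n) // T.card = k} → K) ⧸ W) :=
    g.comp s
  have hgb : gb.comp π = g := by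
    ext1 x
    exact LinearMap.ext fun y => hg _ _ (hs' _)
  have hfin : Module.Finite K ((homogeneousSubmodule (Fin n) K k).map π) := by
    have : (homogeneousSubmodule (Fin n) K k).FG := homogeneousSubmodule_fg (Fin n) K k
    exact Module.Finite.iff_fg.2 (this.map π)
  have h1 : ((homogeneousSubmodule (Fin n) K k).map π).map gb = ⊤ := by
    rw [← Submodule.map_comp, hgb, Submodule.map_comp, map_sq_homogeneous, Submodule.map_top,
      Submodule.range_mkQ]
  have h2 := Submodule.finrank_map_le gb ((homogeneousSubmodule (Fin n) K k).map π)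
  rw [h1, finrank_top] at h2
  have h3 := Submodule.finrank_quotient_add_finrank W
  have h4 : Module.finrank K ((homogeneousSubmodule (Fin n) K k).map π) = hilb J k := rfl
  omega

end chi

/-! ### the predicted series -/

section pred

lemma coeff_binom (n k : ℕ) :
    PowerSeries.coeff k ((1 + PowerSeries.X : PowerSeries ℤ) ^ n) = (n.choose k : ℤ) := by
  have h : ((1 + PowerSeries.X : PowerSeries ℤ) ^ n) =
      (((1 + Polynomial.X : Polynomial ℤ) ^ n : Polynomial ℤ) : PowerSeries ℤ) := by
    simp
  rw [h, Polynomial.coeff_coe, Polynomial.coeff_one_add_X_pow]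

lemma coeff_pred_le (n d k : ℕ) (hk : d ≤ k) (hc : n.choose (k - d) ≤ n.choose k) :
    PowerSeries.coeff k (predicted n ![d]) ≤ (n.choose k : ℤ) - n.choose (k - d) := by
  unfold predicted trunc
  rw [PowerSeries.coeff_mk]
  have h : PowerSeries.coeff k ((1 + PowerSeries.X : PowerSeries ℤ) ^ n *
      ∏ j, (1 - PowerSeries.X ^ (![d] : Fin 1 → ℕ) j)) =
      (n.choose k : ℤ) - n.choose (k - d) := by
    rw [Fin.prod_univ_one, mul_sub, mul_one, map_sub]
    simp only [Matrix.cons_val_zero]
    rw [PowerSeries.coeff_mul_X_pow', if_pos hk, coeff_binom, coeff_binom]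
  rw [h]
  have hc' : (n.choose (k - d) : ℤ) ≤ n.choose k := by exact_mod_cast hc
  split_ifs
  · exact le_rfl
  · omega

lemma choose_mono_half (n a b : ℕ) (hab : a ≤ b) (hb : 2 * b ≤ n + 1) :
    n.choose a ≤ n.choose b := by
  induction b, hab using Nat.le_induction with
  | base => exact le_rfl
  | succ b hab ih =>
    refine le_trans (ih (by omega)) ?_
    rcases Nat.lt_or_ge b (n / 2) with h | h
    · exact Nat.choose_le_succ_of_lt_half_left h
    · -- `n = 2 b + 1`
      have hn : n = 2 * b + 1 := by omega
      have : n.choose b = n.choose (b + 1) := by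
        rw [← Nat.choose_symm (show b + 1 ≤ n by omega)]
        congr 1
        omega
      rw [this]

lemma choose_le (n a b : ℕ) (hab : a ≤ b) (hb : a + b ≤ n) : n.choose a ≤ n.choose b := by
  rcases Nat.lt_or_ge (n + 1) (2 * b) with h | h
  · rw [← Nat.choose_symm (show b ≤ n by omega)]
    exact choose_mono_half n a (n - b) (by omega) (by omega)
  · exact choose_mono_half n a b hab h

end pred

lemma exists_eval_ne {K : Type u} [Field K] [Infinite K] {σ : Type} (g : MvPolynomial σ K)
    (hg : g ≠ 0) : ∃ c, eval c g ≠ 0 := by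
  by_contra h
  push Not at h
  exact hg (MvPolynomial.funext fun c => by rw [h c, map_zero])

end Pool.Agent.N8.SqFree
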